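import Pool.Agent.H84.S2.Tg
import Pool.Agent.H48.SF.LCS

/-!
# Finitely many smooth points of the curve with `P = 0` (FNE)
-/

set_option autoImplicit false

namespace Pool.Agent.H91.S2

open MvPolynomial SC
open Pool.Agent.H27.LV (ge deg poleOrder canDeg)
open Pool.Agent.H84.SM (cr dt dp)
open Pool.Agent.H3.SF (Itg Bb BB Hm eu grd hes Sfc Crd Cnn Crf Prm nv)
open Pool.Agent.H84.SF Pool.Agent.H3.S2 Pool.Agent.H84.S2

section

variable {k F σ : Type} [Field k] [Field F] [Algebra k F]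

/-- forms on the line through `s` -/
theorem fne_scale (s : σ → k) (μ : k) {f : MvPolynomial σ k} {d : ℕ} (hf : f.IsHomogeneous d) :
    eval (μ • s) f = μ ^ d * eval s f := by
  have h := Pool.Agent.H68.SF.hmk_scale (K := k) s μ hf
  have h1 : ∀ (z : σ → k) (g : MvPolynomial σ k), aeval z g = eval z g := by
    intro z g
    rw [aeval_eq_eval]
  rw [h1, h1] at h
  exact h

/-- a form which vanishes at `s` vanishes on the line -/
theorem fne_mem (s : σ → k) {f : MvPolynomial σ k} {d : ℕ} (hf : f.IsHomogeneous d)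
    (h0 : eval s f = 0) : f ∈ Lns s := by
  intro μ
  rw [fne_scale s μ hf, h0, mul_zero]

theorem fne_cone {X : σ → F} {s : σ → k} (hc : Cone X s) (f : MvPolynomial σ k)
    (hf : aeval X f = 0) : f ∈ Lns s := by
  rw [← MvPolynomial.sum_homogeneousComponent f]
  refine Ideal.sum_mem _ fun d _ => ?_
  exact fne_mem s (homogeneousComponent_isHomogeneous d f) (hc.pt _ (hc.hom f d hf))

end

theorem pf_FNE (hOSF : T_OSF) (hSMT : T_SMT) (hPRL : T_PRL) (hMPR : T_MPR) (hMPL : T_MPL) :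
    T_FNE := by
  intro k F σ _ _ _ _ _ _ _ X u dd J j0 hY m GP hm hGP e P hP
  choose U hU1 hU2 using hY.ulin
  obtain ⟨PU, hPU⟩ : ∃ PU : MvPolynomial σ k, PU = aeval U P := ⟨_, rfl⟩
  have hPUh : PU.IsHomogeneous e := by
    rw [hPU]
    have h := hP.aeval U hU1
    rwa [one_mul] at h
  have hPUX : aeval X PU = aeval u P := by
    rw [hPU, ← AlgHom.comp_apply, MvPolynomial.comp_aeval]
    have h : (fun i => (aeval X) (U i)) = u := funext hU2
    rw [h]
  have hPUs : ∀ s : σ → k, eval s PU = eval (fun l => eval s (U l)) P := by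
    intro s
    have h1 : ∀ (τ : Type) (z : τ → k) (g : MvPolynomial τ k), eval z g = aeval z g := by
      intro τ z g
      rw [aeval_eq_eval]
    rw [h1, h1, hPU, ← AlgHom.comp_apply, MvPolynomial.comp_aeval]
    simp only [h1]
  obtain ⟨Q, hQ⟩ : ∃ Q : Ideal (MvPolynomial σ k),
      Q = RingHom.ker (aeval X : MvPolynomial σ k →ₐ[k] F) ⊔ Ideal.span {GP, PU} := ⟨_, rfl⟩
  have hQ1 : ∀ f : MvPolynomial σ k, aeval X f = 0 → f ∈ Q := by
    intro f hf
    rw [hQ]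
    exact Ideal.mem_sup_left hf
  have hQ2 : GP ∈ Q := by
    rw [hQ]
    exact Ideal.mem_sup_right (Ideal.subset_span (by simp))
  have hQ3 : PU ∈ Q := by
    rw [hQ]
    exact Ideal.mem_sup_right (Ideal.subset_span (by simp))
  obtain ⟨T, hT⟩ := hMPR k σ Q
  refine ⟨T, ?_⟩
  intro s hs hc hGs0 hsm hnd hPs0
  refine hT s hs ?_
  have hPUs0 : eval s PU = 0 := by
    rw [hPUs s]
    exact hPs0 U hU2
  have hQL : Q ≤ Lns s := by
    rw [hQ]
    refine sup_le ?_ ?_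
    · intro f hf
      exact fne_cone hc f hf
    · rw [Ideal.span_le]
      rintro f (hf | hf)
      · rw [hf]
        exact fne_mem s hGP hGs0
      · rw [Set.mem_singleton_iff.mp hf]
        exact fne_mem s hPUh hPUs0
  obtain ⟨hN, L0, L1, cX, cG, ε, x1, Gs, dX, dG, hl0, hl1, hv0, hv1, hder, heps, heX, heG, hfrm,
    hdX, hdG⟩ := hOSF k F σ X s dd GP m hc hs (Pool.Agent.H48.SF.lin_dd hY) hm hGP hGs0
      (hSMT k F σ X GP s hsm)
  have hL0 : aeval X L0 ≠ 0 := fun h => hv0 (hc.pt L0 h)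
  have hLe : (L0 ^ e).IsHomogeneous e := by
    have h := hl0.pow e
    rwa [one_mul] at h
  have hLm : (L0 ^ m).IsHomogeneous m := by
    have h := hl0.pow m
    rwa [one_mul] at h
  obtain ⟨Ps, hPs⟩ : ∃ Ps : Os X s, (Ps : F) * aeval X L0 ^ e = aeval X PU := by
    refine ⟨⟨aeval X PU / aeval X L0 ^ e, e, PU, L0 ^ e, ⟨hPUh, hLe, ?_⟩, ?_⟩, ?_⟩
    · rw [map_pow, div_mul_cancel₀ _ (pow_ne_zero _ hL0)]
    · rw [map_pow]
      exact pow_ne_zero _ hv0
    · exact div_mul_cancel₀ _ (pow_ne_zero _ hL0)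
  have hndv : ¬ Gs ∣ Ps := by
    rintro ⟨h, hh⟩
    obtain ⟨d, a, b, ⟨ha, hb, hab⟩, hbs⟩ := h.2
    refine hnd ⟨d + m, d + e, a * L0 ^ e, b * L0 ^ m, ha.mul hLe, hb.mul hLm, ?_, ?_⟩
    · rw [map_mul, map_pow]
      exact mul_ne_zero hbs (pow_ne_zero _ hv0)
    · have h1 : (Ps : F) = (Gs : F) * (h : F) := by rw [hh]; rfl
      rw [← hPUX, ← hPs, h1, ← heG, map_mul, map_mul, map_pow, map_pow, ← hab]
      ring
  have := hN
  refine hMPL k F σ X s hs hc ε heps L0 hl0 hv0 Q hQ1 hQL ?_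
  intro Pr hPr hPrQ
  have hG : Gs ∈ Pr := hPrQ GP m Gs hQ2 hGP heG
  have hPsm : Ps ∈ Pr := hPrQ PU e Ps hQ3 hPUh hPs
  exact hPRL k (Os X s) ε x1 Gs dX dG hfrm Pr hPr hG Ps hPsm hndv

end Pool.Agent.H91.S2
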