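import Pool.Agent.H84.S2.Tg

/-!
# The tangent space of the curve at a smooth point (SMT)
-/

set_option autoImplicit false

namespace Pool.Agent.H91.S2

open MvPolynomial SC
open Pool.Agent.H27.LV (ge deg poleOrder canDeg)
open Pool.Agent.H84.SM (cr dt dp)
open Pool.Agent.H3.SF (Itg Bb BB Hm eu grd hes Sfc Crd Cnn Crf Prm nv)
open Pool.Agent.H84.SF Pool.Agent.H3.S2 Pool.Agent.H84.S2

theorem pf_SMT : T_SMT := by
  intro k F σ _ _ _ _ X GP s h
  by_contra hf
  have hf3 : 3 ≤ Module.finrank k (Tng X s GP) := by omega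
  obtain ⟨y, hy⟩ := exists_linearIndependent_of_le_finrank hf3
  refine h (fun i => (y i : σ → k)) ?_ ?_
  · rintro i f (hf0 | hfG)
    · exact (y i).2.1 f hf0
    · rw [hfG]
      exact (y i).2.2
  · exact hy.map' (Tng X s GP).subtype (Submodule.ker_subtype _)

end Pool.Agent.H91.S2
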